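import Mathlib

/-!
# The upper chromatic numbers of the real line and of the integers agree (MP_c23e02_co)

For all `k ≥ 1` the `k`-th upper chromatic number of `ℝ` equals that of `ℤ`.

Proof.  Let `D` be a `k × m` array of positive reals.  Let `b` be a basis of the `ℚ`-span of the
entries.  If the values at the elements of `b` are changed to rational numbers close to them, one
gets a `ℚ`-linear map `ψ : ℝ → ℚ` which is still positive at all entries of `D`.  For a common
denominator `N` of the numbers `ψ (D i j)` the array `N ψ (D i j)` consists of positive integers;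
if `T` is a colouring of `ℤ` for this array, then `x ↦ T ⌊N ψ x⌋` is a `D`-colouring of `ℝ`.
-/

set_option autoImplicit false

namespace Pool.Agent.Results.MP_c23e02_co.LineEqualsIntegers

/-- `T` is a `D`-coloring of `S`: there are no two points of `S` with distance `D i j` which both
have the colour `j`. -/
def IsColoring (S : Set ℝ) {k m : ℕ} (D : Fin k → Fin m → ℝ) (T : S → Fin m) : Prop :=
  ∀ (j : Fin m) (i : Fin k) (x y : S), |(x : ℝ) - y| = D i j → ¬ (T x = j ∧ T y = j)

/-- `S` is `D`-colorable for every `k × m` array `D` of positive reals. -/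
def AlwaysColorable (S : Set ℝ) (k m : ℕ) : Prop :=
  ∀ D : Fin k → Fin m → ℝ, (∀ i j, 0 < D i j) → ∃ T : S → Fin m, IsColoring S D T

/-- The `k`-th upper chromatic number of `S` (`⊤` if there is no suitable `m`). -/
noncomputable def chi (k : ℕ) (S : Set ℝ) : ℕ∞ :=
  ⨅ m ∈ {m : ℕ | 0 < m ∧ AlwaysColorable S k m}, (m : ℕ∞)

/-- a `ℚ`-linear map which is positive at finitely many given positive reals -/
theorem exists_psi {ι : Type} [Fintype ι] (d : ι → ℝ) (hd : ∀ i, 0 < d i) :
    ∃ ψ : ℝ →ₗ[ℚ] ℚ, ∀ i, 0 < ψ (d i) := by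
  classical
  let W : Submodule ℚ ℝ := Submodule.span ℚ (Set.range d)
  haveI : FiniteDimensional ℚ W := FiniteDimensional.span_of_finite ℚ (Set.finite_range d)
  let b := Module.finBasis ℚ W
  have hmem : ∀ i, d i ∈ W := fun i => Submodule.subset_span ⟨i, rfl⟩
  -- the functions which express the entries
  let F : ι → (Fin (Module.finrank ℚ W) → ℝ) → ℝ :=
    fun i v => ∑ l, ((b.repr ⟨d i, hmem i⟩ l : ℚ) : ℝ) * v l
  have hF : ∀ i, Continuous (F i) := by
    intro i
    exact continuous_finset_sum _ fun l _ => continuous_const.mul (continuous_apply l)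
  have hb : ∀ i, F i (fun l => ((b l : W) : ℝ)) = d i := by
    intro i
    have h1 := congrArg (fun w : W => (w : ℝ)) (b.sum_repr ⟨d i, hmem i⟩)
    simp only [Submodule.coe_sum, Submodule.coe_smul] at h1
    rw [← h1]
    refine Finset.sum_congr rfl fun l _ => ?_
    rw [Rat.smul_def]
  have hopen : IsOpen {v : Fin (Module.finrank ℚ W) → ℝ | ∀ i, 0 < F i v} := by
    rw [Set.setOf_forall]
    exact isOpen_iInter_of_finite fun i => isOpen_lt continuous_const (hF i)
  have hdense : DenseRange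
      (Pi.map (fun (_ : Fin (Module.finrank ℚ W)) (x : ℚ) => (x : ℝ))) :=
    DenseRange.piMap fun _ => Rat.denseRange_cast
  obtain ⟨q, hq⟩ := hdense.exists_mem_open hopen ⟨fun l => ((b l : W) : ℝ), fun i => by
    rw [hb]
    exact hd i⟩
  obtain ⟨ψ, hψ⟩ := LinearMap.exists_extend (b.constr ℚ q)
  refine ⟨ψ, fun i => ?_⟩
  have h1 : ψ (d i) = b.constr ℚ q ⟨d i, hmem i⟩ := by
    rw [← hψ]
    rfl
  have h2 := hq i
  rw [h1, Module.Basis.constr_apply_fintype]
  have h3 : ((∑ l, b.equivFun ⟨d i, hmem i⟩ l • q l : ℚ) : ℝ) =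
      F i (Pi.map (fun _ (x : ℚ) => (x : ℝ)) q) := by
    push_cast
    refine Finset.sum_congr rfl fun l _ => ?_
    simp [Pi.map, smul_eq_mul]
  have h4 : (0 : ℝ) < ((∑ l, b.equivFun ⟨d i, hmem i⟩ l • q l : ℚ) : ℝ) := by
    rw [h3]
    exact h2
  exact_mod_cast h4

/-- a `ℚ`-linear map whose values at finitely many given positive reals are positive integers -/
theorem exists_phi {ι : Type} [Fintype ι] (d : ι → ℝ) (hd : ∀ i, 0 < d i) :
    ∃ (φ : ℝ →ₗ[ℚ] ℚ) (a : ι → ℤ), ∀ i, 0 < a i ∧ φ (d i) = a i := by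
  classical
  obtain ⟨ψ, hψ⟩ := exists_psi d hd
  refine ⟨((∏ i, (ψ (d i)).den : ℕ) : ℚ) • ψ,
    fun i => (ψ (d i)).num * ((∏ j ∈ Finset.univ.erase i, (ψ (d j)).den : ℕ) : ℤ), fun i => ⟨?_, ?_⟩⟩
  · refine mul_pos (Rat.num_pos.2 (hψ i)) ?_
    exact_mod_cast Finset.prod_pos fun j _ => (ψ (d j)).den_pos
  · rw [LinearMap.smul_apply, smul_eq_mul, ← Finset.mul_prod_erase Finset.univ _ (Finset.mem_univ i)]
    push_cast
    rw [mul_comm ((ψ (d i)).den : ℚ), mul_assoc, mul_comm ((ψ (d i)).den : ℚ), Rat.mul_den_eq_num]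
    ring

theorem always_iff (k m : ℕ) : AlwaysColorable Set.univ k m ↔
    AlwaysColorable (Set.range ((↑) : ℤ → ℝ)) k m := by
  constructor
  · intro h D hD
    obtain ⟨T, hT⟩ := h D hD
    exact ⟨fun x => T ⟨x, trivial⟩, fun j i x y hxy => hT j i ⟨x, trivial⟩ ⟨y, trivial⟩ hxy⟩
  · intro h D hD
    obtain ⟨φ, a, ha⟩ := exists_phi (fun p : Fin k × Fin m => D p.1 p.2) (fun p => hD p.1 p.2)
    obtain ⟨T, hT⟩ := h (fun i j => ((a (i, j) : ℤ) : ℝ)) (fun i j => by
      exact_mod_cast (ha (i, j)).1)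
    have key : ∀ (x y : ℝ) (i : Fin k) (j : Fin m), x - y = D i j →
        ⌊φ x⌋ = ⌊φ y⌋ + a (i, j) := by
      intro x y i j hxy
      have h1 : φ x = φ y + (a (i, j) : ℚ) := by
        rw [← (ha (i, j)).2]
        show φ x = φ y + φ (D i j)
        rw [← map_add, ← hxy]
        congr 1
        ring
      rw [h1, Int.floor_add_intCast]
    refine ⟨fun x => T ⟨((⌊φ x⌋ : ℤ) : ℝ), ⟨_, rfl⟩⟩, fun j i x y hxy => ?_⟩
    refine hT j i _ _ ?_
    show |((⌊φ x⌋ : ℤ) : ℝ) - ((⌊φ y⌋ : ℤ) : ℝ)| = ((a (i, j) : ℤ) : ℝ)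
    have hpos : (0 : ℝ) < ((a (i, j) : ℤ) : ℝ) := by exact_mod_cast (ha (i, j)).1
    rcases abs_choice ((x : ℝ) - y) with h1 | h1
    · rw [h1] at hxy
      rw [key x y i j hxy]
      push_cast
      rw [add_sub_cancel_left, abs_of_pos hpos]
    · rw [h1, neg_sub] at hxy
      rw [key y x i j hxy]
      push_cast
      rw [abs_sub_comm, add_sub_cancel_left, abs_of_pos hpos]

/-- **Theorem.** The `k`-th upper chromatic numbers of the real line and of the integers are
equal. -/
theorem result : ∀ k : ℕ, 0 < k →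
    chi k (Set.univ : Set ℝ) = chi k (Set.range ((↑) : ℤ → ℝ)) := by
  intro k _
  unfold chi
  simp only [always_iff]

end Pool.Agent.Results.MP_c23e02_co.LineEqualsIntegers
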